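import Pool.Agent.TH629.BC.Law

/-!
# Injectivity of the Albanese map and identities for correspondences and automorphisms

`𝒱` is a class of smooth projective geometrically irreducible varieties over the field `k` closed
under products (for the problem: all smooth projective varieties over the field `k` of the algebraic
numbers) and `C` is the theory of the Chow groups with rational coefficients (in the form of their
formal properties, `IsChowProj`). `AlbKer C x` says that the zero-cycle `x` on `X` lies in
`F^2(X) ⊗ ℚ`: it has degree zero and is killed by all correspondences to curves. (By the theorem of
Roitman `F^2(X)` has no torsion, so `F^2(X) = 0` if and only if `F^2(X) ⊗ ℚ = 0`.) `AlbInjective C n`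
is the statement that `F^2(X) ⊗ ℚ = 0` for all `X` of dimension `n`.

Let `Q` be a residually finite group and `p` a non-zero element of the free product of the group
algebra `ℚ[Q]` and of the algebra of non-commutative polynomials in variables `y_j` and in their
transposes, that is, a linear combination of words `g_0 v_1 g_1 ⋯ v_N g_N`, with `g_i` in `Q` and each
`v_i` a variable or the transpose of a variable. `IsLaw C n p` says that `p` acts as zero on
`F^2(U) ⊗ ℚ` for all varieties `U` of dimension `n`, all actions of `Q` on `U` and all
correspondences `P_j ∈ CH^n(U × U)` in the place of the variables.

Theorem. For each `n`, the Albanese map is injective for all varieties of dimension `n` if and only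
if the single identity `p` holds in dimension `n`. It is injective for all varieties if and only if
`p` is an identity for surfaces.

For example, the conjecture of Beilinson holds if and only if all involutions of surfaces act
trivially on `F^2` (`Q` of order two, `p = τ - 1`); if and only if all correspondences of degree zero
between a surface and itself commute on `F^2` (`Q` trivial, `p = y_1 y_2 - y_2 y_1`); if and only if
each of them acts as its transpose (`p = y - y^t`); if and only if they satisfy any other polynomial
identity; if and only if for some non-trivial word `w` in a free group (which is residually finite)
`w(g_1, …, g_r)` acts trivially on `F^2(U)` for all automorphisms `g_i` of all surfaces `U` (so if and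
only if the images of the groups of automorphisms of the surfaces in the groups of automorphisms of
the `F^2(U) ⊗ ℚ` are all solvable of a bounded length); if and only if the automorphisms `g` of
surfaces with `g^3 = 1` satisfy `g^2 + g = 2` on `F^2(U) ⊗ ℚ`, and so on. Over the field of the
complex numbers all these identities fail (Mumford).

Hypotheses. `HasPermSections C n` (theorem of Bertini): for each finite set `I` there is an
`n`-dimensional complete intersection of symmetric divisors in the power `S^I` of a variety `S` of
dimension `n`, on which the permutations of `I` act. `HasSurfaceSupport C` (theorem of Lefschetz):
the elements of `F^2(X) ⊗ ℚ` come from surfaces.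

Proof. Let `x` be in `F^2(S) ⊗ ℚ` and `N` the largest number of variables in the words of `p`. As `Q`
is residually finite it acts on a finite set `B` with a point `b` at which the finitely many elements
of `Q` occurring in `p` take different values. Let `U` be the complete intersection in the power of
`S` with exponent `I = B × {0, …, N}` and `f_{b, i} : U → S` the projections. For different `(b, i)`
and `(c, j)` the correspondence `f_{c, j *} f_{b, i}^*` is a multiple of the restriction of `(h_1 +
h_2)^n`, which acts on `F^2(S)` as zero, and `f_{b, i *} f_{b, i}^*` is multiplication by `m ≠ 0`. The
group `Q` acts on `U` through `B`. Take a word `w = g_0 v_1 g_1 ⋯ v_N g_N` of the maximal length `N`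
which occurs in `p`; by a Vandermonde argument only the words of length `N` matter. In the place of
each variable one puts the sum of the correspondences `f_{b, i}^* f_{g_{i-1} b, i-1 *}` for the `i`
for which `v_i` is this variable, and of their transposes for the `i` for which `v_i` is its
transpose. Then `p` maps `f_{b, 0}^* x` to `p_w m^N f_{g_N b, N}^* x` plus terms in the spans of the
other `f_{c, j}^* F^2(S)`; these pull-backs are independent.
-/

open CategoryTheory AlgebraicGeometry

set_option autoImplicit false

universe u v

namespace Pool.Agent.Results.MP_2eeeac_ag.PolynomialAndGroupIdentities

open Pool.Agent.H914 Pool.Agent.W492.BB Pool.Agent.TH133 Pool.Agent.TH629.BC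

/-- The Albanese maps (with rational coefficients) of all varieties of dimension `n` are injective if
and only if the single identity `p` for correspondences and automorphisms holds in dimension `n`; and
the Albanese maps of all varieties are injective if and only if `p` is an identity for surfaces. -/
theorem result {k : Type u} [Field k] {𝒱 : VarClass k} (C : TheoryData.{u, v, 0} 𝒱 ℚ)
    [IsChowProj C] (hsec : ∀ n : ℕ, HasPermSections C n) (hsup : HasSurfaceSupport C)
    (Q κ : Type) [Group Q] [Group.ResiduallyFinite Q]
    (p : (List (Q × (κ × Bool)) × Q) →₀ ℚ) (hp : p ≠ 0) :
    (∀ n : ℕ, AlbInjective C n ↔ IsLaw C n p) ∧
      ((∀ (X : 𝒱.Obj) (x : C.A X), AlbKer C x → x = 0) ↔ IsLaw C 2 p) := by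
  have h1 : ∀ n : ℕ, AlbInjective C n ↔ IsLaw C n p := fun n =>
    ⟨fun h => Law.isLaw_of_injective h p, fun h => Law.injective_of_isLaw (hsec n) hp h⟩
  refine ⟨h1, fun h => (h1 2).1 fun X _ x hx => h X x hx, fun h X x hx => ?_⟩
  exact Law.injective_all hsup ((h1 2).2 h) X x hx

end Pool.Agent.Results.MP_2eeeac_ag.PolynomialAndGroupIdentities
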